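import Mathlib

set_option autoImplicit false

namespace Pool.Agent.H257.BHW

open Submodule

/-- A primitive functional vanishing on a set of small rank. -/
theorem exists_functional {A : Type*} [AddCommGroup A] [Module.Free ℤ A] [Module.Finite ℤ A]
    {N : ℕ} (hA : Module.finrank ℤ A = N + 1) (X : Set A)
    (hX : Module.finrank ℤ (span ℤ X) ≤ N) :
    ∃ f : A →ₗ[ℤ] ℤ, Function.Surjective f ∧ (∀ x ∈ X, f x = 0) ∧
      Module.finrank ℤ (LinearMap.ker f) = N := by
  classical
  have b : Module.Basis (Fin (N+1)) ℤ A := (Module.finBasisOfFinrankEq ℤ A hA)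
  obtain ⟨k, snf⟩ := (span ℤ X).smithNormalForm b
  have hk : Module.finrank ℤ (span ℤ X) = k := by
    rw [Module.finrank_eq_card_basis snf.bN, Fintype.card_fin]
  have : ∃ i0 : Fin (N+1), i0 ∉ Set.range snf.f := by
    by_contra hcon
    push Not at hcon
    have hs : Function.Surjective snf.f := fun i => hcon i
    have := Fintype.card_le_of_surjective _ hs
    simp at this
    omega
  obtain ⟨i0, hi0⟩ := this
  have hsurj : Function.Surjective (snf.bM.coord i0) := by
    intro z
    refine ⟨z • snf.bM i0, ?_⟩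
    simp
  refine ⟨snf.bM.coord i0, hsurj, ?_, ?_⟩
  · intro x hx
    have hx' : (⟨x, subset_span hx⟩ : span ℤ X) ∈ (⊤ : Submodule ℤ (span ℤ X)) := trivial
    rw [← snf.bN.span_eq] at hx'
    have key : ∀ y : span ℤ X, y ∈ span ℤ (Set.range snf.bN) → snf.bM.coord i0 (y : A) = 0 := by
      intro y hy
      induction hy using span_induction with
      | mem y hy =>
        obtain ⟨j, rfl⟩ := hy
        rw [snf.snf]
        simp only [map_smul, Module.Basis.coord_apply, Module.Basis.repr_self]
        rw [Finsupp.single_eq_of_ne]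
        · simp
        · intro h; exact hi0 ⟨j, h.symm⟩
      | zero => simp
      | add y z _ _ hy hz => rw [Submodule.coe_add, map_add, hy, hz, add_zero]
      | smul c y _ hy => rw [Submodule.coe_smul, map_smul, hy, smul_zero]
    exact key _ hx'
  · have h1 := (LinearMap.ker (snf.bM.coord i0)).finrank_quotient_add_finrank
    have h2 : Module.finrank ℤ (A ⧸ LinearMap.ker (snf.bM.coord i0)) = 1 := by
      rw [((snf.bM.coord i0).quotKerEquivOfSurjective hsurj).finrank_eq]
      simp
    omega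

/-- Index of the lattice generated by a sublattice of the kernel and one more vector. -/
theorem index_sup {A : Type*} [AddCommGroup A] (f : A →ₗ[ℤ] ℤ) (hf : Function.Surjective f)
    (M0 : AddSubgroup (LinearMap.ker f)) (g : A) (m : ℕ) (hm : 0 < m) (hg : f g = m) :
    (M0.map (LinearMap.ker f).subtype.toAddMonoidHom ⊔ AddSubgroup.zmultiples g).index
      = m * M0.index := by
  set M1 := M0.map (LinearMap.ker f).subtype.toAddMonoidHom with hM1
  set M := M1 ⊔ AddSubgroup.zmultiples g with hM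
  set K : AddSubgroup A := f.toAddMonoidHom.ker with hK
  have hKmem : ∀ a, a ∈ K ↔ f a = 0 := fun a => Iff.rfl
  have hmem : ∀ a, a ∈ M ↔ ∃ y ∈ M1, ∃ k : ℤ, a = y + k • g := by
    intro a
    rw [hM, AddSubgroup.mem_sup]
    constructor
    · rintro ⟨y, hy, z, hz, rfl⟩
      obtain ⟨k, rfl⟩ := AddSubgroup.mem_zmultiples_iff.1 hz
      exact ⟨y, hy, k, rfl⟩
    · rintro ⟨y, hy, k, rfl⟩
      exact ⟨y, hy, k • g, AddSubgroup.mem_zmultiples_iff.2 ⟨k, rfl⟩, rfl⟩
  have hM1k : ∀ a ∈ M1, f a = 0 := by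
    rw [hM1]; rintro _ ⟨y, _, rfl⟩; exact y.2
  have h1 : M ⊓ K = M1 := by
    ext a
    rw [AddSubgroup.mem_inf, hmem]
    constructor
    · rintro ⟨⟨y, hy, k, rfl⟩, hk⟩
      have hfy : f y = 0 := hM1k _ hy
      have : f (y + k • g) = 0 := hk
      rw [map_add, hfy, map_zsmul, hg, zero_add, smul_eq_mul] at this
      have : k = 0 := by
        rcases mul_eq_zero.1 this with h | h
        · exact h
        · exfalso; omega
      subst this; simpa using hy
    · intro ha
      exact ⟨⟨a, ha, 0, by simp⟩, hM1k _ ha⟩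
  have h2 : M ⊔ K = (AddSubgroup.zmultiples (m : ℤ)).comap f.toAddMonoidHom := by
    ext a
    rw [AddSubgroup.mem_sup, AddSubgroup.mem_comap, AddSubgroup.mem_zmultiples_iff]
    constructor
    · rintro ⟨y, hy, z, hz, rfl⟩
      obtain ⟨y', hy', k, rfl⟩ := (hmem y).1 hy
      have hfy : f y' = 0 := hM1k _ hy'
      have hfz : f z = 0 := hz
      exact ⟨k, by simp [hfy, hfz, hg]⟩
    · rintro ⟨k, hk⟩
      refine ⟨k • g, (hmem _).2 ⟨0, M1.zero_mem, k, by simp⟩, a - k • g, ?_, by abel⟩
      show f (a - k • g) = 0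
      have hk' : k • (m : ℤ) = f a := hk
      rw [map_sub, map_zsmul, hg, ← hk']; simp
  have h3 : (M ⊔ K).index = m := by
    rw [h2, AddSubgroup.index_comap_of_surjective _ hf, Int.index_zmultiples]; simp
  have h4 : M.relIndex (M ⊔ K) = M.relIndex K := by
    rw [sup_comm, AddSubgroup.relIndex_sup_right]
  let e : K ≃+ (LinearMap.ker f) :=
    { toFun := fun x => ⟨x.1, x.2⟩
      invFun := fun x => ⟨x.1, x.2⟩
      left_inv := fun x => rfl
      right_inv := fun x => rfl
      map_add' := fun x y => rfl }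
  have h5 : M.relIndex K = M0.index := by
    rw [← AddSubgroup.inf_relIndex_right, h1, hM1]
    have : (M0.map (LinearMap.ker f).subtype.toAddMonoidHom).addSubgroupOf K
        = M0.comap e.toAddMonoidHom := by
      ext y
      rw [AddSubgroup.mem_addSubgroupOf, AddSubgroup.mem_comap, AddSubgroup.mem_map]
      constructor
      · rintro ⟨z, hz, hzy⟩
        have : z = e y := Subtype.ext hzy
        have h : e y ∈ M0 := this ▸ hz
        exact h
      · intro hy; exact ⟨e y, hy, rfl⟩
    rw [AddSubgroup.relIndex, this, AddSubgroup.index_comap_of_surjective _ e.surjective]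
  rw [← AddSubgroup.relIndex_mul_index (le_sup_left : M ≤ M ⊔ K), h4, h5, h3, mul_comm]

theorem mem_sup' {A : Type*} [AddCommGroup A] (f : A →ₗ[ℤ] ℤ)
    (M0 : AddSubgroup (LinearMap.ker f)) (g : A) {a : A}
    (ha : a ∈ M0.map (LinearMap.ker f).subtype.toAddMonoidHom ⊔ AddSubgroup.zmultiples g) :
    ∃ y : LinearMap.ker f, y ∈ M0 ∧ ∃ k : ℤ, a = y + k • g := by
  rw [AddSubgroup.mem_sup] at ha
  obtain ⟨_, ⟨y, hy, rfl⟩, z, hz, rfl⟩ := ha
  obtain ⟨k, rfl⟩ := AddSubgroup.mem_zmultiples_iff.1 hz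
  exact ⟨y, hy, k, rfl⟩

/-- Ranks of spans in a submodule. -/
theorem finrank_ker_le {A : Type*} [AddCommGroup A] [Module.Free ℤ A] [Module.Finite ℤ A]
    (P : Submodule ℤ A) (X : Set A) (Y : Set P) (h : ∀ y ∈ Y, (y : A) ∈ X) :
    Module.finrank ℤ (span ℤ Y) ≤ Module.finrank ℤ (span ℤ X) := by
  have h1 : Module.finrank ℤ ((span ℤ Y).map P.subtype) = Module.finrank ℤ (span ℤ Y) :=
    (Submodule.equivMapOfInjective P.subtype P.subtype_injective (span ℤ Y)).finrank_eq.symm
  rw [← h1]
  apply Submodule.finrank_mono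
  rw [Submodule.map_span, Submodule.span_le]
  rintro _ ⟨y, hy, rfl⟩
  exact subset_span (h y hy)

universe u

/-- The divisible chain lemma. -/
theorem dc : ∀ (k : ℕ) (W : Type u) [AddCommGroup W] [Module.Free ℤ W] [Module.Finite ℤ W],
    Module.finrank ℤ W = k → ∀ (T : Set W) (a : ℕ → ℕ), (∀ j, 0 < a j) →
    (∀ j, a (j+1) ∣ a j) →
    (∀ j < k, Module.finrank ℤ (span ℤ {w : W | a j • w ∈ T}) ≤ j) →
    ∃ M : AddSubgroup W, M.index = ∏ j ∈ Finset.range k, a j ∧ (∀ w ∈ M, w ∈ T → w = 0) ∧
      (∀ q : ℕ, (∀ j < k, q ∣ a j) → ∀ w ∈ M, ∃ w' : W, w = q • w') := by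
  intro k
  induction k with
  | zero =>
    intro W _ _ _ hW T a _ _ _
    have hs : Subsingleton W := by
      rw [← Module.finrank_eq_zero_iff_of_free ℤ W]; exact hW
    exact ⟨⊤, by simp, fun w _ _ => Subsingleton.elim _ _, fun q _ w _ => ⟨0, Subsingleton.elim _ _⟩⟩
  | succ k ih =>
    intro W _ _ _ hW T a ha hd hr
    obtain ⟨f, hf, hX, hker⟩ := exists_functional hW _ (hr k (Nat.lt_succ_self k))
    obtain ⟨p, hp⟩ := hf 1
    obtain ⟨M0, hi0, hT0, hq0⟩ := ih (LinearMap.ker f) hker
      {w | (w : W) ∈ T} a ha hd (by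
        intro j hj
        refine le_trans (finrank_ker_le _ {w : W | a j • w ∈ T} _ ?_) (hr j (by omega))
        intro y hy
        exact hy)
    have hdk : ∀ j < k, a k ∣ a j := by
      have : ∀ i j, a (j + i) ∣ a j := by
        intro i
        induction i with
        | zero => intro j; simp
        | succ i ih => intro j; exact (hd (j+i)).trans (ih j)
      intro j hj
      have := this (k - j) j
      rwa [Nat.add_sub_cancel' hj.le] at this
    refine ⟨M0.map (LinearMap.ker f).subtype.toAddMonoidHom ⊔ AddSubgroup.zmultiples (a k • p),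
      ?_, ?_, ?_⟩
    · rw [index_sup f hf M0 (a k • p) (a k) (ha k) (by simp [hp]), hi0, Finset.prod_range_succ,
        mul_comm]
    · intro w hw hwT
      obtain ⟨y, hy, n, rfl⟩ := mem_sup' f M0 _ hw
      obtain ⟨y', hy'⟩ := hq0 (a k) hdk y hy
      have h1 : (y : W) + n • a k • p = a k • ((y' : W) + n • p) := by
        rw [hy', smul_add, smul_comm]; rfl
      have h2 : f ((y' : W) + n • p) = 0 := by
        apply hX
        show a k • _ ∈ T
        rwa [← h1]
      have h3 : n = 0 := by
        rw [map_add, map_zsmul, hp, y'.2] at h2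
        simpa using h2
      subst h3
      have h4 : y = 0 := hT0 y hy (by simpa using hwT)
      rw [h4]; simp
    · intro q hq w hw
      obtain ⟨y, hy, n, rfl⟩ := mem_sup' f M0 _ hw
      obtain ⟨y', hy'⟩ := hq0 q (fun j hj => hq j (by omega)) y hy
      obtain ⟨c, hc⟩ := hq k (by omega)
      refine ⟨(y' : W) + n • c • p, ?_⟩
      rw [hy', smul_add, hc, mul_smul, smul_comm n q]; rfl

end Pool.Agent.H257.BHW
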