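import Mathlib
import Pool.Agent.H257.BHW.Alg

set_option autoImplicit false

namespace Pool.Agent.H257.BHW

open Submodule

universe u

/-- The divisible chain lemma, general form. -/
theorem dc2 : ∀ (k : ℕ) (W : Type u) [AddCommGroup W] [Module.Free ℤ W] [Module.Finite ℤ W],
    Module.finrank ℤ W = k → ∀ (X : ℕ → Set W) (a : ℕ → ℕ), (∀ j, 0 < a j) →
    (∀ j, a (j+1) ∣ a j) →
    (∀ j < k, Module.finrank ℤ (span ℤ (X j)) ≤ j) →
    ∃ M : AddSubgroup W, M.index = ∏ j ∈ Finset.range k, a j ∧
      (∀ w ∈ M, w ≠ 0 → ∃ j < k, ∃ w' : W, w = a j • w' ∧ w' ∉ X j) ∧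
      (∀ q : ℕ, (∀ j < k, q ∣ a j) → ∀ w ∈ M, ∃ w' : W, w = q • w') := by
  intro k
  induction k with
  | zero =>
    intro W _ _ _ hW X a _ _ _
    have hs : Subsingleton W := by
      rw [← Module.finrank_eq_zero_iff_of_free ℤ W]; exact hW
    exact ⟨⊤, by simp, fun w _ h => absurd (Subsingleton.elim _ _) h,
      fun q _ w _ => ⟨0, Subsingleton.elim _ _⟩⟩
  | succ k ih =>
    intro W _ _ _ hW X a ha hd hr
    obtain ⟨f, hf, hX, hker⟩ := exists_functional hW _ (hr k (Nat.lt_succ_self k))
    obtain ⟨p, hp⟩ := hf 1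
    obtain ⟨M0, hi0, hT0, hq0⟩ := ih (LinearMap.ker f) hker
      (fun j => {w | (w : W) ∈ X j}) a ha hd (by
        intro j hj
        refine le_trans (finrank_ker_le _ (X j) _ ?_) (hr j (by omega))
        intro y hy
        exact hy)
    have hdk : ∀ j < k, a k ∣ a j := by
      have : ∀ i j, a (j + i) ∣ a j := by
        intro i
        induction i with
        | zero => intro j; simp
        | succ i ih => intro j; exact (hd (j+i)).trans (ih j)
      intro j hj
      have := this (k - j) j
      rwa [Nat.add_sub_cancel' hj.le] at this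
    refine ⟨M0.map (LinearMap.ker f).subtype.toAddMonoidHom ⊔ AddSubgroup.zmultiples (a k • p),
      ?_, ?_, ?_⟩
    · rw [index_sup f hf M0 (a k • p) (a k) (ha k) (by simp [hp]), hi0, Finset.prod_range_succ,
        mul_comm]
    · intro w hw hw0
      obtain ⟨y, hy, n, rfl⟩ := mem_sup' f M0 _ hw
      by_cases hn : n = 0
      · subst hn
        have hy0 : y ≠ 0 := by
          rintro rfl
          apply hw0; simp
        obtain ⟨j, hj, w', hw', hw'X⟩ := hT0 y hy hy0
        refine ⟨j, by omega, (w' : W), ?_, hw'X⟩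
        rw [hw']; simp
      · obtain ⟨y', hy'⟩ := hq0 (a k) hdk y hy
        refine ⟨k, Nat.lt_succ_self k, (y' : W) + n • p, ?_, ?_⟩
        · rw [hy', smul_add, smul_comm]; rfl
        · intro hmem
          have h2 := hX _ hmem
          rw [map_add, map_zsmul, hp, y'.2] at h2
          apply hn
          simpa using h2
    · intro q hq w hw
      obtain ⟨y, hy, n, rfl⟩ := mem_sup' f M0 _ hw
      obtain ⟨y', hy'⟩ := hq0 q (fun j hj => hq j (by omega)) y hy
      obtain ⟨c, hc⟩ := hq k (by omega)
      refine ⟨(y' : W) + n • c • p, ?_⟩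
      rw [hy', smul_add, hc, mul_smul, smul_comm n q]; rfl

/-- Choosing a homomorphism `ℤ^t → G` avoiding few bad values at unimodular vectors. -/
theorem avoid {G : Type*} [AddCommGroup G] [Fintype G] [DecidableEq G] {t : ℕ}
    (Q : Finset (Fin t → ℤ)) (hQ : ∀ x ∈ Q, ∃ u : Fin t → ℤ, ∑ i, x i * u i = 1)
    (S : (Fin t → ℤ) → Finset G) (hS : ∑ x ∈ Q, (S x).card < Fintype.card G) :
    ∃ γ : Fin t → G, ∀ x ∈ Q, ∑ i, x i • γ i ∉ S x := by
  classical
  by_contra hcon
  push Not at hcon
  have hbad : ∀ x ∈ Q, Fintype.card G * (Finset.univ.filter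
      (fun γ : Fin t → G => ∑ i, x i • γ i ∈ S x)).card
        = Fintype.card (Fin t → G) * (S x).card := by
    intro x hx
    obtain ⟨u, hu⟩ := hQ x hx
    have hshift : ∀ g : G, (Finset.univ.filter
        (fun γ : Fin t → G => ∑ i, x i • γ i ∈ S x)).card
        = (Finset.univ.filter (fun γ : Fin t → G => ∑ i, x i • γ i + g ∈ S x)).card := by
      intro g
      symm
      apply Finset.card_bij (fun γ _ => fun i => γ i + u i • g)
      · intro γ hγ
        rw [Finset.mem_filter] at hγ ⊢
        refine ⟨Finset.mem_univ _, ?_⟩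
        have : ∑ i, x i • (γ i + u i • g) = ∑ i, x i • γ i + g := by
          simp only [smul_add, Finset.sum_add_distrib, smul_smul]
          rw [← Finset.sum_smul, hu, one_smul]
        rw [this]; exact hγ.2
      · intro γ _ γ' _ h
        funext i
        have := congrFun h i
        exact add_right_cancel this
      · intro γ hγ
        rw [Finset.mem_filter] at hγ
        refine ⟨fun i => γ i - u i • g, ?_, ?_⟩
        · rw [Finset.mem_filter]
          refine ⟨Finset.mem_univ _, ?_⟩
          have : ∑ i, x i • (γ i - u i • g) + g = ∑ i, x i • γ i := by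
            simp only [smul_sub, Finset.sum_sub_distrib, smul_smul]
            rw [← Finset.sum_smul, hu, one_smul]; abel
          rw [this]; exact hγ.2
        · funext i; simp
    calc Fintype.card G * (Finset.univ.filter
        (fun γ : Fin t → G => ∑ i, x i • γ i ∈ S x)).card
        = ∑ g : G, (Finset.univ.filter
            (fun γ : Fin t → G => ∑ i, x i • γ i + g ∈ S x)).card := by
          rw [Finset.sum_congr rfl (fun g _ => (hshift g).symm), Finset.sum_const,
            Finset.card_univ, smul_eq_mul]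
      _ = ∑ γ : Fin t → G, (Finset.univ.filter
            (fun g : G => ∑ i, x i • γ i + g ∈ S x)).card := by
          simp only [Finset.card_filter]
          rw [Finset.sum_comm]
      _ = ∑ γ : Fin t → G, (S x).card := by
          apply Finset.sum_congr rfl
          intro γ _
          apply Finset.card_bij (fun g _ => ∑ i, x i • γ i + g)
          · intro g hg; exact (Finset.mem_filter.1 hg).2
          · intro g _ g' _ h; exact add_left_cancel h
          · intro s hs
            exact ⟨s - ∑ i, x i • γ i, by rw [Finset.mem_filter]; simpa using hs, by abel⟩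
      _ = Fintype.card (Fin t → G) * (S x).card := by
          rw [Finset.sum_const, Finset.card_univ, smul_eq_mul]
  have hcover : Fintype.card (Fin t → G) ≤ ∑ x ∈ Q, (Finset.univ.filter
      (fun γ : Fin t → G => ∑ i, x i • γ i ∈ S x)).card := by
    rw [← Finset.card_univ]
    refine le_trans (Finset.card_le_card ?_) Finset.card_biUnion_le
    intro γ _
    obtain ⟨x, hx, hxγ⟩ := hcon γ
    rw [Finset.mem_biUnion]
    exact ⟨x, hx, Finset.mem_filter.2 ⟨Finset.mem_univ _, hxγ⟩⟩
  have h1 : Fintype.card G * Fintype.card (Fin t → G)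
      ≤ Fintype.card (Fin t → G) * ∑ x ∈ Q, (S x).card := by
    calc Fintype.card G * Fintype.card (Fin t → G)
        ≤ Fintype.card G * ∑ x ∈ Q, (Finset.univ.filter
          (fun γ : Fin t → G => ∑ i, x i • γ i ∈ S x)).card := Nat.mul_le_mul_left _ hcover
      _ = Fintype.card (Fin t → G) * ∑ x ∈ Q, (S x).card := by
        rw [Finset.mul_sum, Finset.mul_sum]
        exact Finset.sum_congr rfl hbad
  have hpos : 0 < Fintype.card (Fin t → G) := Fintype.card_pos
  rw [mul_comm] at h1
  have := Nat.le_of_mul_le_mul_left h1 hpos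
  omega

/-- Gluing a sublattice of a saturated subgroup and one of the quotient. -/
theorem glue {A : Type*} [AddCommGroup A] (K : Submodule ℤ A) (σ : (A ⧸ K) →ₗ[ℤ] A)
    (hσ : ∀ x, K.mkQ (σ x) = x) (M0 : AddSubgroup K) (Mb : AddSubgroup (A ⧸ K))
    (θ : Mb →+ (K ⧸ M0)) :
    ∃ M : AddSubgroup A, M.index = M0.index * Mb.index ∧
      ∀ a ∈ M, ∃ (x : Mb) (u : K), a = σ x + u ∧
        (QuotientAddGroup.mk u : K ⧸ M0) = θ x := by
  classical
  let A' : AddSubgroup A := Mb.comap K.mkQ.toAddMonoidHom
  have hdiff : ∀ a : A, a - σ (K.mkQ a) ∈ K := by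
    intro a
    have h : K.mkQ (a - σ (K.mkQ a)) = 0 := by rw [map_sub, hσ, sub_self]
    rwa [Submodule.mkQ_apply, Submodule.Quotient.mk_eq_zero] at h
  let ρ : A →+ K :=
    { toFun := fun a => ⟨a - σ (K.mkQ a), hdiff a⟩
      map_zero' := by apply Subtype.ext; simp
      map_add' := fun a b => by apply Subtype.ext; simp; abel }
  let π' : A' →+ Mb :=
    { toFun := fun a => ⟨K.mkQ a, a.2⟩
      map_zero' := by apply Subtype.ext; simp
      map_add' := fun a b => by apply Subtype.ext; simp }
  let Φ : A' →+ (K ⧸ M0) :=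
    (QuotientAddGroup.mk' M0).comp (ρ.comp A'.subtype) - θ.comp π'
  have hsurj : Function.Surjective Φ := by
    intro t
    obtain ⟨u, rfl⟩ := QuotientAddGroup.mk_surjective t
    have hu0 : K.mkQ (u : A) = 0 := by
      rw [Submodule.mkQ_apply, Submodule.Quotient.mk_eq_zero]; exact u.2
    have hu : (u : A) ∈ A' := by
      show K.mkQ (u : A) ∈ Mb
      rw [hu0]; exact Mb.zero_mem
    refine ⟨⟨u, hu⟩, ?_⟩
    have h1 : ρ (u : A) = u := by
      apply Subtype.ext
      show (u : A) - σ (K.mkQ (u : A)) = u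
      rw [hu0]; simp
    have h2 : π' ⟨u, hu⟩ = 0 := by
      apply Subtype.ext
      exact hu0
    show (QuotientAddGroup.mk' M0) (ρ (u : A)) - θ (π' ⟨u, hu⟩) = _
    rw [h1, h2, map_zero, sub_zero]; rfl
  refine ⟨Φ.ker.map A'.subtype, ?_, ?_⟩
  · rw [AddSubgroup.index_map_subtype, AddSubgroup.index_ker, AddMonoidHom.range_eq_top.2 hsurj]
    have h1 : A'.index = Mb.index :=
      AddSubgroup.index_comap_of_surjective _ (Submodule.mkQ_surjective K)
    rw [h1]
    congr 1
    rw [AddSubgroup.card_top]; rfl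
  · rintro _ ⟨a, ha, rfl⟩
    refine ⟨π' a, ρ (a : A), ?_, ?_⟩
    · show (a : A) = σ (K.mkQ a) + (a - σ (K.mkQ a))
      abel
    · have : (QuotientAddGroup.mk' M0) (ρ (a : A)) - θ (π' a) = 0 := ha
      exact sub_eq_zero.1 this

end Pool.Agent.H257.BHW
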