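import Mathlib
import Pool.Agent.H257.BHW.Alg

set_option autoImplicit false

namespace Pool.Agent.H257.BHW

open Submodule

section conv

variable {E : Type*} [AddCommGroup E] [Module ℝ E]

theorem abs_sum {D : Set E} (hD : Convex ℝ D) (hs : ∀ x ∈ D, -x ∈ D) (h0 : (0 : E) ∈ D)
    {I : Type*} [Fintype I] (w : I → ℝ) (z : I → E) (hz : ∀ i, z i ∈ D)
    (hw : ∑ i, |w i| ≤ 1) : ∑ i, w i • z i ∈ D := by
  classical
  have key := hD.sum_mem (t := (Finset.univ : Finset (Option I)))
    (w := fun o => o.elim (1 - ∑ i, |w i|) (fun i => |w i|))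
    (z := fun o => o.elim 0 (fun i => if 0 ≤ w i then z i else - z i)) ?_ ?_ ?_
  · rw [Fintype.sum_option] at key
    simp only [Option.elim_none, Option.elim_some, smul_zero, zero_add] at key
    convert key using 2 with i
    split_ifs with h
    · rw [abs_of_nonneg h]
    · rw [abs_of_neg (not_le.1 h)]; simp
  · intro o _
    cases o with
    | none => simpa using hw
    | some i => exact abs_nonneg _
  · rw [Fintype.sum_option]; simp
  · intro o _
    cases o with
    | none => exact h0
    | some i =>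
      show (if 0 ≤ w i then z i else - z i) ∈ D
      split_ifs
      · exact hz i
      · exact hs _ (hz i)

theorem smul_mem1 {D : Set E} (hD : Convex ℝ D) (hs : ∀ x ∈ D, -x ∈ D) (h0 : (0 : E) ∈ D)
    {c : ℝ} (hc : |c| ≤ 1) {x : E} (hx : x ∈ D) : c • x ∈ D := by
  have := abs_sum hD hs h0 (I := Unit) (fun _ => c) (fun _ => x) (fun _ => hx) (by simpa using hc)
  simpa using this

variable [FiniteDimensional ℝ E]
variable {A : Type*} [AddCommGroup A] [Module.Free ℤ A] [Module.Finite ℤ A]

theorem cell {N : ℕ} (hA : Module.finrank ℤ A = N) (ι : A →ₗ[ℤ] E) (v : Fin N → A)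
    (hv : LinearIndependent ℝ (fun i => ι (v i))) (s : E) (hs : s ∈ span ℝ (Set.range ι)) :
    ∃ (a : A) (β : Fin N → ℝ), (∀ j, 0 ≤ β j ∧ β j ≤ 1) ∧ s + ∑ j, β j • ι (v j) = ι a := by
  classical
  have c : Module.Basis (Fin N) ℤ A := Module.finBasisOfFinrankEq ℤ A hA
  have h1 : span ℝ (Set.range ι) = span ℝ (Set.range (fun i => ι (c i))) := by
    apply le_antisymm
    · rw [span_le]
      rintro _ ⟨a, rfl⟩
      rw [← c.sum_repr a, map_sum]
      apply Submodule.sum_mem
      intro i _
      rw [map_smul, ← Int.cast_smul_eq_zsmul ℝ]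
      exact smul_mem _ _ (subset_span ⟨i, rfl⟩)
    · apply span_mono
      rintro _ ⟨i, rfl⟩
      exact ⟨c i, rfl⟩
  have h2 : span ℝ (Set.range (fun i => ι (v i))) = span ℝ (Set.range ι) := by
    apply Submodule.eq_of_le_of_finrank_le
    · apply span_mono
      rintro _ ⟨i, rfl⟩
      exact ⟨v i, rfl⟩
    · rw [finrank_span_eq_card hv, h1]
      exact finrank_range_le_card _
  rw [← h2] at hs
  rw [Submodule.mem_span_range_iff_exists_fun] at hs
  obtain ⟨α, hα⟩ := hs
  refine ⟨∑ j, (-⌊-(α j)⌋) • v j, fun j => Int.fract (-(α j)), fun j =>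
    ⟨Int.fract_nonneg _, (Int.fract_lt_one _).le⟩, ?_⟩
  rw [← hα, map_sum, ← Finset.sum_add_distrib]
  apply Finset.sum_congr rfl
  intro j _
  rw [map_smul, ← Int.cast_smul_eq_zsmul ℝ, ← add_smul]
  congr 1
  show α j + Int.fract (-α j) = ((-⌊-α j⌋ : ℤ) : ℝ)
  rw [← Int.self_sub_floor]; push_cast; ring

theorem rank_le (ι : A →ₗ[ℤ] E)
    (hI : ∀ (k : ℕ) (v : Fin k → A), LinearIndependent ℤ v → LinearIndependent ℝ (fun i => ι (v i)))
    (X : Set A) : Module.finrank ℤ (span ℤ X) ≤ Module.finrank ℝ (span ℝ (ι '' X)) := by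
  classical
  set k := Module.finrank ℤ (span ℤ X) with hk
  have w : Module.Basis (Fin k) ℤ (span ℤ X) := Module.finBasisOfFinrankEq ℤ _ hk.symm
  have h1 : LinearIndependent ℤ (fun i => ((w i : span ℤ X) : A)) :=
    w.linearIndependent.map' (span ℤ X).subtype (ker_subtype _)
  have h2 := hI k _ h1
  have h3 := finrank_span_eq_card h2
  rw [Fintype.card_fin] at h3
  rw [← h3]
  apply Submodule.finrank_mono
  rw [span_le]
  rintro _ ⟨i, rfl⟩
  have : ∀ y ∈ span ℤ X, ι y ∈ span ℝ (ι '' X) := by
    intro y hy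
    induction hy using span_induction with
    | mem y hy => exact subset_span ⟨y, hy, rfl⟩
    | zero => rw [map_zero]; exact zero_mem _
    | add y z _ _ hy hz => rw [map_add]; exact add_mem hy hz
    | smul c y _ hy => rw [map_smul, ← Int.cast_smul_eq_zsmul ℝ]; exact smul_mem _ _ hy
  exact this _ (w i).2

theorem extract {N : ℕ} (ι : A →ₗ[ℤ] E) (X : Set A)
    (hN : N ≤ Module.finrank ℝ (span ℝ (ι '' X))) :
    ∃ v : Fin N → A, (∀ j, v j ∈ X) ∧ LinearIndependent ℝ (fun i => ι (v i)) := by
  classical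
  obtain ⟨b, hb, hspan, hli⟩ := exists_linearIndependent ℝ (ι '' X)
  have hfin : b.Finite := hli.setFinite
  have : Fintype b := hfin.fintype
  have hcard : Fintype.card b = Module.finrank ℝ (span ℝ (ι '' X)) := by
    rw [← hspan, finrank_span_set_eq_card hli]; simp
  let g : Fin N → b := fun i => (Fintype.equivFin b).symm (Fin.castLE (by omega) i)
  have hg : Function.Injective g := by
    intro i j hij
    have := (Fintype.equivFin b).symm.injective hij
    exact Fin.castLE_injective _ this
  have hpre : ∀ i : Fin N, ∃ a ∈ X, ι a = g i := fun i => hb (g i).2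
  choose v hvX hv using hpre
  refine ⟨v, hvX, ?_⟩
  have : (fun i => ι (v i)) = (fun y : b => (y : E)) ∘ g := by
    funext i; exact hv i
  rw [this]
  exact hli.comp g hg

end conv

end Pool.Agent.H257.BHW
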