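import Mathlib
import Pool.Agent.H257.BHW.Count
import Pool.Agent.H257.BHW.Alg2

set_option autoImplicit false

namespace Pool.Agent.H257.BHW

open Submodule

variable {E : Type*} [AddCommGroup E] [Module ℝ E] [FiniteDimensional ℝ E]

theorem count2 {A : Type*} [AddCommGroup A] [Module.Free ℤ A] [Module.Finite ℤ A]
    {N : ℕ} (hA : Module.finrank ℤ A = N + 1) (ι : A →ₗ[ℤ] E)
    (hI : ∀ (k : ℕ) (v : Fin k → A), LinearIndependent ℤ v → LinearIndependent ℝ (fun i => ι (v i)))
    {D : Set E} (hD : Convex ℝ D) (hs : ∀ x ∈ D, -x ∈ D) (h0 : (0 : E) ∈ D)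
    (P : E) (mN : ℕ) (hmN : 0 < mN) (hfree : ∀ a : A, P + (mN : ℝ) • ι a ∉ D)
    (m : ℕ → ℕ) (hm : Antitone m)
    (hr : ∀ j < N + 1, Module.finrank ℝ (span ℝ (ι '' {a : A | (m j : ℝ) • ι a ∈ D})) ≤ j)
    (hgap : (N + 1) * mN ≤ m N) :
    {u : A | P + ι u ∈ D}.Finite ∧
      {u : A | P + ι u ∈ D}.ncard ≤ 4 ^ N * ((N + 1) * mN) * ∏ j ∈ Finset.range N, m j := by
  classical
  set S : Set A := {u : A | P + ι u ∈ D} with hS
  set r : ℕ := (N + 1) * mN with hrdef
  have hrpos : 0 < r := by positivity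
  have hrR : (r : ℝ) = (N + 1) * mN := by rw [hrdef]; push_cast; ring
  set V : Set A := {v : A | ∃ u ∈ S, ∃ u' ∈ S, u - u' = r • v} with hV
  -- the rank of V
  have hVrank : Module.finrank ℝ (span ℝ (ι '' V)) ≤ N := by
    by_contra hcon
    push Not at hcon
    obtain ⟨v, hvV, hvli⟩ := extract (N := N + 1) ι V hcon
    choose u hu u' hu' huv using hvV
    have hN1 : (0 : ℝ) < (N : ℝ) + 1 := by positivity
    have hmNR : (0 : ℝ) < mN := by exact_mod_cast hmN
    obtain ⟨a, β, hβ, hcell⟩ := cell hA ι v hvli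
      (∑ j, (1 / (((N : ℝ) + 1) * mN)) • ι (u' j))
      (Submodule.sum_mem _ fun j _ => smul_mem _ _ (subset_span ⟨_, rfl⟩))
    apply hfree a
    have hv' : ∀ j, (r : ℝ) • ι (v j) = ι (u j) - ι (u' j) := by
      intro j
      rw [← map_sub, huv j, map_nsmul, Nat.cast_smul_eq_nsmul]
    have h1 : P + (mN : ℝ) • ι a
        = ∑ j : Fin (N+1), (1 / ((N : ℝ) + 1)) •
            ((1 - β j) • (P + ι (u' j)) + β j • (P + ι (u j))) := by
      rw [← hcell, smul_add, Finset.smul_sum, Finset.smul_sum]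
      have h2 : ∀ j : Fin (N+1), (1 / ((N : ℝ) + 1)) •
            ((1 - β j) • (P + ι (u' j)) + β j • (P + ι (u j)))
          = (1 / ((N : ℝ) + 1)) • P + ((mN : ℝ) • (1 / (((N : ℝ) + 1) * mN)) • ι (u' j)
            + (mN : ℝ) • β j • ι (v j)) := by
        intro j
        have h3 : (mN : ℝ) • β j • ι (v j) = (β j / ((N : ℝ) + 1)) • (ι (u j) - ι (u' j)) := by
          rw [← hv' j, smul_smul, smul_smul, hrR]
          congr 1
          field_simp
        rw [h3]
        have h4 : (mN : ℝ) • (1 / (((N : ℝ) + 1) * mN)) • ι (u' j)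
            = (1 / ((N : ℝ) + 1)) • ι (u' j) := by
          rw [smul_smul]; congr 1; field_simp
        rw [h4]
        module
      rw [Finset.sum_congr rfl (fun j _ => h2 j), Finset.sum_add_distrib, Finset.sum_add_distrib]
      congr 1
      rw [Finset.sum_const, Finset.card_univ, Fintype.card_fin, ← Nat.cast_smul_eq_nsmul ℝ,
        smul_smul]
      push_cast
      rw [mul_one_div_cancel hN1.ne', one_smul]
    rw [h1]
    apply hD.sum_mem
    · intro j _; positivity
    · rw [Finset.sum_const, Finset.card_univ, Fintype.card_fin, nsmul_eq_mul]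
      push_cast
      field_simp
    · intro j _
      exact hD (hu' j) (hu j) (by linarith [(hβ j).2]) (hβ j).1 (by ring)
  -- the lattice W
  set W := span ℤ V with hW
  have hWrank : Module.finrank ℤ W ≤ N := le_trans (rank_le ι hI V) hVrank
  obtain ⟨a, ha, had, ha1, ha2⟩ := exps m hm r hrpos
  set T : Set W := {w : W | ∃ d1 ∈ D, ∃ d2 ∈ D, ι (r • (w : A)) = d1 - d2} with hT
  have hrankj : ∀ j < Module.finrank ℤ W,
      Module.finrank ℤ (span ℤ {w : W | a j • w ∈ T}) ≤ j := by
    intro j hj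
    have hjN : j < N + 1 := by omega
    refine le_trans ?_ (le_trans (rank_le ι hI {b : A | (m j : ℝ) • ι b ∈ D}) (hr j hjN))
    apply finrank_ker_le
    rintro w ⟨d1, hd1, d2, hd2, hw⟩
    show (m j : ℝ) • ι (w : A) ∈ D
    have haj : (0 : ℝ) < a j := by exact_mod_cast ha j
    have hrj : (0 : ℝ) < r := by exact_mod_cast hrpos
    have h1 : (r : ℝ) • (a j : ℝ) • ι (w : A) = d1 - d2 := by
      rw [← hw]
      rw [Nat.cast_smul_eq_nsmul, Nat.cast_smul_eq_nsmul, ← map_nsmul, ← map_nsmul]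
      rfl
    have h2 : ((1:ℝ)/2) • (d1 - d2) ∈ D := by
      have := hD hd1 (hs _ hd2) (by norm_num : (0:ℝ) ≤ 1/2) (by norm_num : (0:ℝ) ≤ 1/2) (by norm_num)
      convert this using 1
      module
    have h3 : (m j : ℝ) • ι (w : A) = ((2 * m j : ℝ) / (a j * r)) • (((1:ℝ)/2) • (d1 - d2)) := by
      rw [← h1, smul_smul, smul_smul, smul_smul]
      congr 1
      field_simp
    rw [h3]
    apply smul_mem1 hD hs h0 _ h2
    rw [abs_of_nonneg (by positivity), div_le_one (by positivity)]
    exact_mod_cast ha1 j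
  obtain ⟨M, hMi, hMT, -⟩ := dc _ W rfl T a ha had hrankj
  have hprodpos : 0 < ∏ j ∈ Finset.range (Module.finrank ℤ W), a j :=
    Finset.prod_pos fun j _ => ha j
  have hfinQ : Finite (W ⧸ M) := by
    have : M.FiniteIndex := ⟨by rw [hMi]; exact hprodpos.ne'⟩
    infer_instance
  have : NeZero r := ⟨hrpos.ne'⟩
  have c : Module.Basis (Fin (N+1)) ℤ A := Module.finBasisOfFinrankEq ℤ A hA
  let κ : A → (Fin (N+1) → ZMod r) := fun u i => ((c.repr u i : ℤ) : ZMod r)
  have hκ : ∀ u u', κ u = κ u' → ∃ v, u - u' = r • v := by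
    intro u u' h
    have h1 : ∀ i, ∃ q : ℤ, c.repr u i - c.repr u' i = r * q := by
      intro i
      have h2 : ((c.repr u i : ℤ) : ZMod r) = ((c.repr u' i : ℤ) : ZMod r) := congrFun h i
      have h3 := (ZMod.intCast_eq_intCast_iff_dvd_sub _ _ _).1 h2.symm
      exact h3
    choose q hq using h1
    refine ⟨∑ i, q i • c i, ?_⟩
    rw [← c.sum_repr (u - u'), Finset.smul_sum]
    apply Finset.sum_congr rfl
    intro i _
    rw [map_sub, Finsupp.sub_apply, hq i, mul_smul]
    simp
  let rep : (Fin (N+1) → ZMod r) → A := fun k0 =>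
    if h : ∃ u' ∈ S, κ u' = k0 then Classical.choose h else 0
  have hrep : ∀ u ∈ S, rep (κ u) ∈ S ∧ κ (rep (κ u)) = κ u := by
    intro u hu
    have h : ∃ u' ∈ S, κ u' = κ u := ⟨u, hu, rfl⟩
    have h1 : rep (κ u) = Classical.choose h := dif_pos h
    rw [h1]
    exact Classical.choose_spec h
  have hv : ∀ u : S, ∃ v : W, (u : A) - rep (κ u) = r • (v : A) := by
    intro u
    obtain ⟨v, hv⟩ := hκ _ _ (hrep u u.2).2.symm
    exact ⟨⟨v, subset_span ⟨u, u.2, _, (hrep u u.2).1, hv⟩⟩, hv⟩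
  choose v hv using hv
  let Ψ : S → (Fin (N+1) → ZMod r) × (W ⧸ M) := fun u => (κ u, QuotientAddGroup.mk (v u))
  have hΨ : Function.Injective Ψ := by
    intro u u' h
    have h1 : κ u = κ u' := congrArg Prod.fst h
    have h2 : (QuotientAddGroup.mk (v u) : W ⧸ M) = QuotientAddGroup.mk (v u') :=
      congrArg Prod.snd h
    rw [QuotientAddGroup.eq] at h2
    have h3 : (u' : A) - u = r • ((-v u + v u' : W) : A) := by
      have e1 := hv u
      have e2 := hv u'
      rw [← h1] at e2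
      have : (u' : A) - u = (u' - rep (κ u)) - (u - rep (κ u)) := by abel
      rw [this, e1, e2, ← smul_sub]
      congr 1
      push_cast
      abel
    have h4 : (-v u + v u' : W) = 0 := by
      apply hMT _ h2
      refine ⟨P + ι u', u'.2, P + ι u, u.2, ?_⟩
      rw [← h3, map_sub]; abel
    rw [h4] at h3
    apply Subtype.ext
    have : (u' : A) - u = 0 := by simpa using h3
    exact (sub_eq_zero.1 this).symm
  have hSfin : Finite S := Finite.of_injective Ψ hΨ
  refine ⟨Set.toFinite S, ?_⟩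
  have hcard : S.ncard ≤ r ^ (N+1) * ∏ j ∈ Finset.range (Module.finrank ℤ W), a j := by
    have h1 : Nat.card S ≤ Nat.card ((Fin (N+1) → ZMod r) × (W ⧸ M)) :=
      Nat.card_le_card_of_injective Ψ hΨ
    rw [Nat.card_prod] at h1
    have h2 : Nat.card (Fin (N+1) → ZMod r) = r ^ (N+1) := by
      rw [Nat.card_eq_fintype_card, Fintype.card_fun, ZMod.card, Fintype.card_fin]
    have h3 : Nat.card (W ⧸ M) = ∏ j ∈ Finset.range (Module.finrank ℤ W), a j := by
      rw [← hMi]; rfl
    rw [h2, h3] at h1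
    exact h1
  have hprod : ∏ j ∈ Finset.range (Module.finrank ℤ W), a j ≤ ∏ j ∈ Finset.range N, a j := by
    apply Finset.prod_le_prod_of_subset_of_one_le'
    · exact Finset.range_mono hWrank
    · intro j _ _; exact ha j
  calc S.ncard ≤ r ^ (N+1) * ∏ j ∈ Finset.range (Module.finrank ℤ W), a j := hcard
    _ ≤ r ^ (N+1) * ∏ j ∈ Finset.range N, a j := Nat.mul_le_mul_left _ hprod
    _ = r * ∏ j ∈ Finset.range N, (r * a j) := by
        rw [Finset.prod_mul_distrib, Finset.prod_const, Finset.card_range, pow_succ]; ring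
    _ ≤ r * ∏ j ∈ Finset.range N, (4 * m j) := by
        apply Nat.mul_le_mul_left
        apply Finset.prod_le_prod'
        intro j hj
        apply ha2
        have : m N ≤ m j := hm (Finset.mem_range.1 hj).le
        omega
    _ = (4 ^ N * r) * ∏ j ∈ Finset.range N, m j := by
        rw [Finset.prod_mul_distrib, Finset.prod_const, Finset.card_range]; ring

theorem sec {A : Type*} [AddCommGroup A] [Module.Free ℤ A] [Module.Finite ℤ A]
    {s : ℕ} (hA : Module.finrank ℤ A = s) (ι : A →ₗ[ℤ] E)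
    {D : Set E} (hD : Convex ℝ D) (hs : ∀ x ∈ D, -x ∈ D) (h0 : (0 : E) ∈ D)
    (v : Fin s → A) (hv : LinearIndependent ℝ (fun i => ι (v i))) (c m : ℕ)
    (hc : 0 < c) (hcm : 2 * s * m ≤ c) (hvD : ∀ j, (c : ℝ) • ι (v j) ∈ D)
    (z z0 : E) (hz : (2 : ℝ) • (m : ℝ) • z ∈ D) (hz0 : z - z0 ∈ span ℝ (Set.range ι)) :
    ∃ a : A, (m : ℝ) • (z0 + ι a) ∈ D := by
  classical
  obtain ⟨a, β, hβ, hcell⟩ := cell hA ι v hv (z - z0) hz0
  refine ⟨a, ?_⟩
  have hcR : (0 : ℝ) < c := by exact_mod_cast hc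
  have h1 : (m : ℝ) • (z0 + ι a)
      = ∑ o : Option (Fin s), (o.elim (1 / 2 : ℝ) (fun j => β j * m / c)) •
          (o.elim ((2 : ℝ) • (m : ℝ) • z) (fun j => (c : ℝ) • ι (v j))) := by
    rw [Fintype.sum_option]
    simp only [Option.elim_none, Option.elim_some]
    have h2 : ∀ j : Fin s, (β j * m / c) • (c : ℝ) • ι (v j) = (m : ℝ) • β j • ι (v j) := by
      intro j
      rw [smul_smul, smul_smul]
      congr 1
      field_simp
    rw [Finset.sum_congr rfl (fun j _ => h2 j), ← Finset.smul_sum, ← hcell]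
    module
  rw [h1]
  apply abs_sum hD hs h0
  · intro o
    cases o with
    | none => exact hz
    | some j => exact hvD j
  · rw [Fintype.sum_option]
    simp only [Option.elim_none, Option.elim_some]
    have hsum : ∑ j : Fin s, |β j * (m : ℝ) / (c : ℝ)| ≤ s * (m / c) := by
      calc ∑ j : Fin s, |β j * (m : ℝ) / (c : ℝ)| ≤ ∑ j : Fin s, ((m : ℝ) / (c : ℝ)) := by
            apply Finset.sum_le_sum
            intro j _
            have h3 := (hβ j).1
            have h4 := (hβ j).2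
            rw [abs_of_nonneg (by positivity)]
            apply div_le_div_of_nonneg_right _ hcR.le
            have : (0 : ℝ) ≤ m := Nat.cast_nonneg _
            nlinarith
        _ = s * (m / c) := by simp
    have h5 : (s : ℝ) * (m / c) ≤ 1 / 2 := by
      rw [← mul_div_assoc, div_le_div_iff₀ hcR (by norm_num)]
      have : (2 : ℝ) * s * m ≤ c := by exact_mod_cast hcm
      linarith
    have h6 : |(1 / 2 : ℝ)| = 1 / 2 := by norm_num
    rw [h6]
    linarith

end Pool.Agent.H257.BHW
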