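import Mathlib
import Pool.Agent.H257.BHW.Count

set_option autoImplicit false

namespace Pool.Agent.H257.BHW

open Submodule

universe u

variable {E : Type*} [AddCommGroup E] [Module ℝ E] [FiniteDimensional ℝ E]

theorem mono_nat {D : Set E} (hD : Convex ℝ D) (hs : ∀ x ∈ D, -x ∈ D) (h0 : (0 : E) ∈ D)
    {p q : ℕ} (hpq : p ≤ q) {x : E} (hx : (q : ℝ) • x ∈ D) : (p : ℝ) • x ∈ D := by
  rcases Nat.eq_zero_or_pos q with h | h
  · have : p = 0 := by omega
    subst this; subst h; exact hx
  · have hq : (0 : ℝ) < q := by exact_mod_cast h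
    have : (p : ℝ) • x = ((p : ℝ) / q) • ((q : ℝ) • x) := by
      rw [smul_smul]; congr 1; field_simp
    rw [this]
    apply smul_mem1 hD hs h0 _ hx
    rw [abs_of_nonneg (by positivity), div_le_one hq]
    exact_mod_cast hpq

theorem sublattice {D : Set E} (hD : Convex ℝ D) (hs : ∀ x ∈ D, -x ∈ D) (h0 : (0 : E) ∈ D)
    (m : ℕ → ℕ) (hm : Antitone m) (hpos : ∀ j, 0 < m j) (C : ℕ) :
    ∀ (n : ℕ) (A : Type u) [AddCommGroup A] [Module.Free ℤ A] [Module.Finite ℤ A]
      (ι : A →ₗ[ℤ] E), Module.finrank ℤ A = n →
      (∀ (k : ℕ) (v : Fin k → A), LinearIndependent ℤ v →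
        LinearIndependent ℝ (fun i => ι (v i))) →
      (∀ i < n, 4 ^ i * (i + 1) ≤ C ∧ 2 * (i + 1) ≤ C) →
      (∀ j < n, Module.finrank ℝ (span ℝ (ι '' {a : A | (m j : ℝ) • ι a ∈ D})) ≤ j) →
      (∀ j < n, j ≤ Module.finrank ℝ (span ℝ (ι '' {a : A | ((C * m j : ℕ) : ℝ) • ι a ∈ D}))) →
      (∀ j, j + 1 < n → C * m (j+1) < m j) →
      ∃ M : AddSubgroup A, M.index = ∏ j ∈ Finset.range n, m j ∧ ∀ a ∈ M, ι a ∈ D → a = 0 := by
  classical
  intro n
  induction n with
  | zero =>
    intro A _ _ _ ι hA _ _ _ _ _
    have hsub : Subsingleton A := by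
      rw [← Module.finrank_eq_zero_iff_of_free ℤ A]; exact hA
    exact ⟨⊤, by simp, fun a _ _ => Subsingleton.elim _ _⟩
  | succ N ih =>
    intro A _ _ _ ι hA hI hC ha hb hc
    have hX : Module.finrank ℤ (span ℤ {a : A | (m N : ℝ) • ι a ∈ D}) ≤ N :=
      le_trans (rank_le ι hI _) (ha N (Nat.lt_succ_self N))
    obtain ⟨f, hf, hfX, hker⟩ := exists_functional hA _ hX
    obtain ⟨p, hp⟩ := hf 1
    set ι0 : (LinearMap.ker f) →ₗ[ℤ] E := ι.comp (LinearMap.ker f).subtype with hι0
    have hι0a : ∀ a : LinearMap.ker f, ι0 a = ι (a : A) := fun a => rfl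
    have hI0 : ∀ (k : ℕ) (v : Fin k → LinearMap.ker f), LinearIndependent ℤ v →
        LinearIndependent ℝ (fun i => ι0 (v i)) := by
      intro k v hv
      have h1 : LinearIndependent ℤ (fun i => ((v i : LinearMap.ker f) : A)) :=
        hv.map' (LinearMap.ker f).subtype (ker_subtype _)
      exact hI k _ h1
    have hC1 : 1 ≤ C := by have := (hC 0 (by omega)).2; omega
    have ha0 : ∀ j < N, Module.finrank ℝ
        (span ℝ (ι0 '' {a : LinearMap.ker f | (m j : ℝ) • ι0 a ∈ D})) ≤ j := by
      intro j hj
      refine le_trans ?_ (ha j (by omega))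
      apply Submodule.finrank_mono
      apply span_mono
      rintro _ ⟨a, haa, rfl⟩
      exact ⟨(a : A), haa, rfl⟩
    have hb0 : ∀ j ≤ N, j ≤ Module.finrank ℝ
        (span ℝ (ι0 '' {a : LinearMap.ker f | ((C * m j : ℕ) : ℝ) • ι0 a ∈ D})) := by
      intro j hj
      refine le_trans (hb j (by omega)) ?_
      apply Submodule.finrank_mono
      apply span_mono
      rintro _ ⟨a, haa, rfl⟩
      have h1 : m N ≤ C * m j := by
        have := hm hj
        nlinarith [hpos j]
      have h2 : (m N : ℝ) • ι a ∈ D := mono_nat hD hs h0 h1 haa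
      exact ⟨⟨a, hfX a h2⟩, haa, rfl⟩
    obtain ⟨M0, hM0i, hM0⟩ := ih (LinearMap.ker f) ι0 hker hI0
      (fun i hi => hC i (by omega)) ha0 (fun j hj => hb0 j hj.le) (fun j hj => hc j (by omega))
    have hnot : ∀ a : LinearMap.ker f, (m N : ℝ) • ι (p + a) ∉ D := by
      intro a h
      have h1 := hfX _ h
      rw [map_add, hp, a.2] at h1
      norm_num at h1
    set P : E := (m N : ℝ) • ι p with hP
    set S : Set (LinearMap.ker f) := {u | P + ι0 u ∈ D} with hS
    have hScount : S.Finite ∧ S.ncard < ∏ j ∈ Finset.range N, m j := by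
      rcases Nat.eq_zero_or_pos N with hN | hN
      · subst hN
        have hsub : Subsingleton (LinearMap.ker f) := by
          rw [← Module.finrank_eq_zero_iff_of_free ℤ]; exact hker
        have hSe : S = ∅ := by
          ext u
          simp only [Set.mem_empty_iff_false, iff_false]
          intro hu
          have hu0 : u = 0 := Subsingleton.elim _ _
          subst hu0
          apply hnot 0
          have : P + ι0 0 ∈ D := hu
          simpa [hP] using this
        rw [hSe]; simp
      · obtain ⟨N', rfl⟩ : ∃ N', N = N' + 1 := ⟨N - 1, by omega⟩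
        apply count hker ι0 hI0 hD hs h0 P (m (N'+1)) (hpos _) _ m hm hpos ha0
        · have h1 := hc N' (by omega)
          have h2 := (hC N' (by omega)).1
          calc 4 ^ N' * ((N' + 1) * m (N'+1)) = (4 ^ N' * (N' + 1)) * m (N'+1) := by ring
            _ ≤ C * m (N'+1) := Nat.mul_le_mul_right _ h2
            _ < m N' := h1
        · intro a h
          apply hnot a
          rw [map_add, smul_add]; exact h
    obtain ⟨hSfin, hSlt⟩ := hScount
    have hτ : ∃ τ : LinearMap.ker f, ∀ u ∈ S, u - τ ∉ M0 := by
      by_contra hcon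
      push Not at hcon
      have : Finite S := hSfin
      have hsurj : Function.Surjective
          (fun u : S => (QuotientAddGroup.mk (u : LinearMap.ker f) : (LinearMap.ker f) ⧸ M0)) := by
        intro t
        obtain ⟨τ, rfl⟩ := QuotientAddGroup.mk_surjective t
        obtain ⟨u, hu, huτ⟩ := hcon τ
        refine ⟨⟨u, hu⟩, ?_⟩
        show (QuotientAddGroup.mk u : (LinearMap.ker f) ⧸ M0) = QuotientAddGroup.mk τ
        rw [QuotientAddGroup.eq]
        have : -u + τ = -(u - τ) := by abel
        rw [this]; exact M0.neg_mem huτ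
      have h1 := Nat.card_le_card_of_surjective _ hsurj
      have h2 : Nat.card ((LinearMap.ker f) ⧸ M0) = ∏ j ∈ Finset.range N, m j := by
        rw [← hM0i]; rfl
      rw [h2] at h1
      exact absurd h1 (not_le.2 hSlt)
    obtain ⟨τ, hτ⟩ := hτ
    refine ⟨M0.map (LinearMap.ker f).subtype.toAddMonoidHom ⊔
      AddSubgroup.zmultiples (m N • p + (τ : A)), ?_, ?_⟩
    · rw [index_sup f hf M0 (m N • p + (τ : A)) (m N) (hpos N)
        (by rw [map_add, τ.2, map_nsmul, hp]; simp), hM0i, Finset.prod_range_succ, mul_comm]
    · intro a haM haD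
      obtain ⟨y, hy, k, rfl⟩ := mem_sup' f M0 _ haM
      have hιa : ι ((y : A) + k • (m N • p + (τ : A)))
          = ι (y : A) + (k : ℝ) • (P + ι (τ : A)) := by
        rw [map_add, map_zsmul, map_add, map_nsmul, hP, ← Nat.cast_smul_eq_nsmul ℝ,
          ← Int.cast_smul_eq_zsmul ℝ]
      rw [hιa] at haD
      have hcases : k = 0 ∨ k = 1 ∨ k = -1 ∨ 2 ≤ |k| := by
        rcases lt_trichotomy k 0 with h | h | h
        · rw [abs_of_neg h]; omega
        · left; exact h
        · rw [abs_of_pos h]; omega
      rcases hcases with hk | hk | hk | hk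
      · subst hk
        have h1 : y = 0 := hM0 y hy (by simpa [hι0a] using haD)
        rw [h1]; simp
      · exfalso
        subst hk
        apply hτ (y + τ)
        · show P + ι0 (y + τ) ∈ D
          rw [map_add, hι0a, hι0a]
          convert haD using 1
          push_cast
          module
        · simpa using hy
      · exfalso
        subst hk
        apply hτ (-y + τ)
        · show P + ι0 (-y + τ) ∈ D
          rw [map_add, map_neg, hι0a, hι0a]
          convert hs _ haD using 1
          push_cast
          module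
        · simpa using M0.neg_mem hy
      · exfalso
        obtain ⟨v, hvX, hvli⟩ := extract (N := N) ι0
          {a : LinearMap.ker f | ((C * m N : ℕ) : ℝ) • ι0 a ∈ D} (hb0 N le_rfl)
        have hk0 : (k : ℝ) ≠ 0 := by
          intro h
          have : k = 0 := by exact_mod_cast h
          subst this; norm_num at hk
        have hmN : (0 : ℝ) < m N := by exact_mod_cast hpos N
        have hCR : (0 : ℝ) < C := by exact_mod_cast hC1
        obtain ⟨a', β, hβ, hcell⟩ := cell hker ι0 v hvli
          ((1 / ((k : ℝ) * m N)) • ι0 (k • τ + y)) (smul_mem _ _ (subset_span ⟨_, rfl⟩))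
        apply hnot a'
        have h1 : (m N : ℝ) • ι (p + (a' : A))
            = ∑ o : Option (Fin N), (o.elim (1 / (k : ℝ)) (fun j => β j / C)) •
                (o.elim (ι (y : A) + (k : ℝ) • (P + ι (τ : A)))
                  (fun j => ((C * m N : ℕ) : ℝ) • ι0 (v j))) := by
          rw [Fintype.sum_option]
          simp only [Option.elim_none, Option.elim_some]
          have h2 : ∀ j : Fin N, (β j / C) • ((C * m N : ℕ) : ℝ) • ι0 (v j)
              = (m N : ℝ) • β j • ι0 (v j) := by
            intro j
            rw [smul_smul, smul_smul]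
            congr 1
            push_cast
            field_simp
          rw [Finset.sum_congr rfl (fun j _ => h2 j), ← Finset.smul_sum]
          rw [map_add, ← hι0a a', ← hcell]
          have h3 : ι0 (k • τ + y) = (k : ℝ) • ι (τ : A) + ι (y : A) := by
            rw [map_add, map_zsmul, ← Int.cast_smul_eq_zsmul ℝ, hι0a, hι0a]
          rw [h3, hP]
          rw [smul_add, smul_add, ← add_assoc]
          congr 1
          match_scalars <;> field_simp
        rw [h1]
        apply abs_sum hD hs h0
        · intro o
          cases o with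
          | none => exact haD
          | some j => exact hvX j
        · rw [Fintype.sum_option]
          simp only [Option.elim_none, Option.elim_some]
          have hk2 : |1 / (k : ℝ)| ≤ 1 / 2 := by
            rw [abs_div, abs_one]
            apply one_div_le_one_div_of_le (by norm_num)
            have : (2 : ℝ) ≤ ((|k| : ℤ) : ℝ) := by exact_mod_cast hk
            rwa [Int.cast_abs] at this
          have hsum : ∑ j : Fin N, |β j / (C : ℝ)| ≤ N * (1 / C) := by
            calc ∑ j : Fin N, |β j / (C : ℝ)| ≤ ∑ j : Fin N, (1 / (C : ℝ)) := by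
                  apply Finset.sum_le_sum
                  intro j _
                  rw [abs_of_nonneg (div_nonneg (hβ j).1 hCR.le)]
                  exact div_le_div_of_nonneg_right (hβ j).2 hCR.le
              _ = N * (1 / C) := by simp
          have hC2 : (2 : ℝ) * (N + 1) ≤ C := by exact_mod_cast (hC N (by omega)).2
          have h5 : (N : ℝ) * (1 / C) ≤ 1 / 2 := by
            rw [mul_one_div, div_le_div_iff₀ hCR (by norm_num)]
            linarith
          linarith

end Pool.Agent.H257.BHW
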