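import Mathlib
import Pool.Agent.H257.BHW.Rec
import Pool.Agent.H257.BHW.Count2

set_option autoImplicit false

namespace Pool.Agent.H257.BHW

open Submodule

universe u

variable {E : Type*} [AddCommGroup E] [Module ℝ E] [FiniteDimensional ℝ E]

theorem block {D : Set E} (hD : Convex ℝ D) (hs : ∀ x ∈ D, -x ∈ D) (h0 : (0 : E) ∈ D)
    (m : ℕ → ℕ) (hm : Antitone m) (hpos : ∀ j, 0 < m j) (C r t : ℕ)
    {A : Type*} [AddCommGroup A] [Module.Free ℤ A] [Module.Finite ℤ A] (ι : A →ₗ[ℤ] E)
    (hA : Module.finrank ℤ A = r + 1 + t)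
    (hI : ∀ (k : ℕ) (v : Fin k → A), LinearIndependent ℤ v →
        LinearIndependent ℝ (fun i => ι (v i)))
    (hCa : 4 ^ t * (4 ^ r * (r + 1)) ≤ C) (hCb : 2 * (r + 1) ≤ C)
    (K : Submodule ℤ A) (hK : Module.finrank ℤ K = r + 1) [Module.Free ℤ (A ⧸ K)]
    (v : Fin (r + 1) → K) (hv : LinearIndependent ℝ (fun i => ι (v i : A)))
    (hvD : ∀ j, ((C * m (r + 1) : ℕ) : ℝ) • ι (v j : A) ∈ D)
    (ha : ∀ j < r + 1 + t,
      Module.finrank ℝ (span ℝ (ι '' {a : A | (m j : ℝ) • ι a ∈ D})) ≤ j)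
    (hchain : ∀ j, r + 1 ≤ j → j + 1 < r + 1 + t → m (j + 1) ∣ m j)
    (hgap : C * m (r + 1) < m r)
    (M0 : AddSubgroup K) (hM0i : M0.index = ∏ j ∈ Finset.range (r + 1), m j)
    (hM0 : ∀ a ∈ M0, ι (a : A) ∈ D → a = 0) :
    ∃ M : AddSubgroup A, M.index = ∏ j ∈ Finset.range (r + 1 + t), m j ∧
      ∀ a ∈ M, ι a ∈ D → a = 0 := by
  classical
  set ι0 : K →ₗ[ℤ] E := ι.comp K.subtype with hι0
  have hι0a : ∀ a : K, ι0 a = ι (a : A) := fun a => rfl
  have hI0 : ∀ (k : ℕ) (v : Fin k → K), LinearIndependent ℤ v →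
      LinearIndependent ℝ (fun i => ι0 (v i)) := by
    intro k v hv
    have h1 : LinearIndependent ℤ (fun i => ((v i : K) : A)) :=
      hv.map' K.subtype (ker_subtype _)
    exact hI k _ h1
  obtain ⟨σ, hσ⟩ := LinearMap.exists_rightInverse_of_surjective K.mkQ (range_mkQ K)
  have hσ' : ∀ x, K.mkQ (σ x) = x := fun x => by
    have := congrArg (fun g => g x) hσ
    simpa using this
  have hrankQ : Module.finrank ℤ (A ⧸ K) = t := by
    have := K.finrank_quotient_add_finrank
    omega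
  have hCpos : 0 < C := by omega
  set X : ℕ → Set (A ⧸ K) :=
    fun j => {w | ∃ a : K, (m (r + 1 + j) : ℝ) • (ι (σ w) + ι0 a) ∈ D} with hX
  have hms : ∀ j, m (r + 1 + j) ≤ m (r + 1) := fun j => hm (by omega)
  have hXrank : ∀ j < t, Module.finrank ℤ (span ℤ (X j)) ≤ j := by
    intro j hj
    set Y : Submodule ℤ A := span ℤ {a : A | (m (r + 1 + j) : ℝ) • ι a ∈ D} with hY
    have h1 : span ℤ (X j) ≤ LinearMap.range (K.mkQ.domRestrict Y) := by
      rw [span_le]
      rintro w ⟨a, ha'⟩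
      refine ⟨⟨σ w + a, subset_span ?_⟩, ?_⟩
      · show (m (r + 1 + j) : ℝ) • ι (σ w + a) ∈ D
        rw [map_add]; exact ha'
      · show K.mkQ (σ w + a) = w
        have : K.mkQ (a : A) = 0 := by
          rw [Submodule.mkQ_apply, Submodule.Quotient.mk_eq_zero]; exact a.2
        rw [map_add, hσ', this, add_zero]
    have h2 : Module.finrank ℤ Y ≤ r + 1 + j :=
      le_trans (rank_le ι hI _) (ha _ (by omega))
    have h3a := (LinearMap.ker (K.mkQ.domRestrict Y)).finrank_quotient_add_finrank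
    have h3b := (K.mkQ.domRestrict Y).quotKerEquivRange.finrank_eq
    have h4 : r + 1 ≤ Module.finrank ℤ (LinearMap.ker (K.mkQ.domRestrict Y)) := by
      have hvY : ∀ i, (v i : A) ∈ Y := by
        intro i
        apply subset_span
        show (m (r + 1 + j) : ℝ) • ι (v i : A) ∈ D
        apply mono_nat hD hs h0 _ (hvD i)
        nlinarith [hms j]
      let v' : Fin (r+1) → LinearMap.ker (K.mkQ.domRestrict Y) := fun i =>
        ⟨⟨(v i : A), hvY i⟩, by
          rw [LinearMap.mem_ker]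
          show K.mkQ (v i : A) = 0
          rw [Submodule.mkQ_apply, Submodule.Quotient.mk_eq_zero]; exact (v i).2⟩
      have hv' : LinearIndependent ℤ v' := by
        have h5 : LinearIndependent ℤ (fun i => ι (v i : A)) :=
          hv.restrict_scalars (by
            intro x y hxy
            simpa using hxy)
        exact LinearIndependent.of_comp
          ((ι.comp Y.subtype).comp (LinearMap.ker (K.mkQ.domRestrict Y)).subtype) h5
      have := hv'.fintype_card_le_finrank
      simpa using this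
    have h6 : Module.finrank ℤ (span ℤ (X j))
        ≤ Module.finrank ℤ (LinearMap.range (K.mkQ.domRestrict Y)) :=
      Submodule.finrank_mono h1
    omega
  set a : ℕ → ℕ := fun j => if j < t then m (r + 1 + j) else 1 with hadef
  have hapos : ∀ j, 0 < a j := by
    intro j; simp only [hadef]; split_ifs
    · exact hpos _
    · norm_num
  have hadvd : ∀ j, a (j+1) ∣ a j := by
    intro j; simp only [hadef]
    by_cases h1 : j + 1 < t
    · rw [if_pos h1, if_pos (by omega : j < t)]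
      exact hchain (r + 1 + j) (by omega) (by omega)
    · rw [if_neg h1]; exact one_dvd _
  obtain ⟨Mb, hMbi, hMb, -⟩ := dc2 t (A ⧸ K) hrankQ X a hapos hadvd hXrank
  have hmR : ∀ j, (0 : ℝ) < m j := fun j => by exact_mod_cast hpos j
  have hmem' : ∀ w ∈ Mb, w ≠ 0 → ∃ j < t, ∃ w', w = m (r + 1 + j) • w' ∧ w' ∉ X j := by
    intro w hw hw0
    obtain ⟨j, hj, w', hw', hw'X⟩ := hMb w hw hw0
    refine ⟨j, hj, w', ?_, hw'X⟩
    rw [hw']; simp only [hadef]; rw [if_pos hj]
  have hscale : ∀ (k : ℕ) (w' : A ⧸ K), ι (σ (k • w')) = (k : ℝ) • ι (σ w') := by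
    intro k w'
    rw [map_nsmul, map_nsmul, Nat.cast_smul_eq_nsmul]
  have nohalf : ∀ w ∈ Mb, w ≠ 0 → ∀ z : E, z - ι (σ w) ∈ span ℝ (Set.range ι0) →
      (2 : ℝ) • z ∉ D := by
    intro w hw hw0 z hz hz2
    obtain ⟨j, hj, w', rfl, hw'X⟩ := hmem' w hw hw0
    apply hw'X
    apply sec hK ι0 hD hs h0 v hv (C * m (r+1)) (m (r + 1 + j))
      (Nat.mul_pos hCpos (hpos _)) _ hvD ((1 / (m (r + 1 + j) : ℝ)) • z) (ι (σ w'))
    · convert hz2 using 2
      rw [smul_smul, mul_one_div_cancel (hmR _).ne', one_smul]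
    · have h1 : (1 / (m (r + 1 + j) : ℝ)) • z - ι (σ w')
          = (1 / (m (r + 1 + j) : ℝ)) • (z - ι (σ (m (r + 1 + j) • w'))) := by
        rw [hscale, smul_sub, smul_smul, one_div_mul_cancel (hmR _).ne', one_smul]
      rw [h1]
      exact smul_mem _ _ hz
    · exact Nat.mul_le_mul hCb (hms j)
  -- basis of Mb
  let Mb' : Submodule ℤ (A ⧸ K) := AddSubgroup.toIntSubmodule Mb
  set t' := Module.finrank ℤ Mb' with ht'
  have ht't : t' ≤ t := by
    rw [ht', ← hrankQ]; exact Submodule.finrank_le _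
  have e : Module.Basis (Fin t') ℤ Mb' := Module.finBasisOfFinrankEq ℤ Mb' ht'.symm
  let xi : (Fin t' → ℤ) → Mb' := fun c => ∑ i, c i • e i
  have hxiM : ∀ c, (xi c : A ⧸ K) ∈ Mb := fun c => (xi c).2
  have hxiinj : ∀ c c', xi c = xi c' → c = c' := by
    intro c c' h
    have h1 : e.equivFun.symm c = e.equivFun.symm c' := by
      rw [Module.Basis.equivFun_symm_apply, Module.Basis.equivFun_symm_apply]; exact h
    exact e.equivFun.symm.injective h1
  let Q : Set (Fin t' → ℤ) :=
    {c | xi c ≠ 0 ∧ ∃ u : K, ι (σ (xi c : A ⧸ K)) + ι0 u ∈ D}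
  have hxisub : ∀ (c c' d : Fin t' → ℤ) (k : ℤ), (∀ i, c i - c' i = k * d i) →
      ι (σ (xi c : A ⧸ K)) - ι (σ (xi c' : A ⧸ K)) = (k : ℝ) • ι (σ (xi d : A ⧸ K)) := by
    intro c c' d k h
    have h1 : xi c - xi c' = k • xi d := by
      show ∑ i, c i • e i - ∑ i, c' i • e i = k • ∑ i, d i • e i
      rw [← Finset.sum_sub_distrib, Finset.smul_sum]
      apply Finset.sum_congr rfl
      intro i _
      rw [← sub_smul, h i, mul_smul]
    have h2 : (xi c : A ⧸ K) - (xi c' : A ⧸ K) = k • (xi d : A ⧸ K) := by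
      have := congrArg (Subtype.val) h1
      simpa using this
    rw [← map_sub, ← map_sub, h2, map_zsmul, map_zsmul, Int.cast_smul_eq_zsmul]
  have hQinj : Function.Injective (fun (c : Q) (i : Fin t') => ((c.1 i : ℤ) : ZMod 4)) := by
    intro c c' h
    have h1 : ∀ i, ∃ q : ℤ, c.1 i - c'.1 i = (4 : ℕ) * q := by
      intro i
      have h2 : ((c.1 i : ℤ) : ZMod 4) = ((c'.1 i : ℤ) : ZMod 4) := congrFun h i
      exact (ZMod.intCast_eq_intCast_iff_dvd_sub _ _ _).1 h2.symm
    choose q hq using h1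
    have h2 := hxisub c.1 c'.1 q (4 : ℕ) hq
    obtain ⟨_, u, hu⟩ := c.2
    obtain ⟨_, u', hu'⟩ := c'.2
    have h3 : xi q = 0 := by
      by_contra hne
      have hne' : (xi q : A ⧸ K) ≠ 0 := fun h => hne (Subtype.ext h)
      apply nohalf _ (hxiM q) hne' ((1/4 : ℝ) • ((ι (σ (xi c.1 : A ⧸ K)) + ι0 u)
        - (ι (σ (xi c'.1 : A ⧸ K)) + ι0 u')))
      · have h4 : (1/4 : ℝ) • ((ι (σ (xi c.1 : A ⧸ K)) + ι0 u)
            - (ι (σ (xi c'.1 : A ⧸ K)) + ι0 u')) - ι (σ (xi q : A ⧸ K))
            = (1/4 : ℝ) • (ι0 (u - u')) := by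
          have h5 : ι (σ (xi c.1 : A ⧸ K)) = ι (σ (xi c'.1 : A ⧸ K))
              + (4 : ℝ) • ι (σ (xi q : A ⧸ K)) := by
            have : ((((4 : ℕ) : ℤ)) : ℝ) = 4 := by norm_num
            rw [this] at h2
            rw [← h2]; abel
          rw [h5, map_sub]; module
        rw [h4]
        exact smul_mem _ _ (subset_span ⟨_, rfl⟩)
      · have h4 := hD hu (hs _ hu') (by norm_num : (0:ℝ) ≤ 1/2) (by norm_num : (0:ℝ) ≤ 1/2)
          (by norm_num)
        convert h4 using 1
        module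
    have h4 : c.1 = c'.1 := by
      apply hxiinj
      have h5 : q = 0 := by
        apply hxiinj
        rw [h3]
        show (0 : Mb') = ∑ i, (0 : Fin t' → ℤ) i • e i
        simp
      have h6 : ∀ i, c.1 i = c'.1 i := by
        intro i
        have := hq i
        rw [h5] at this
        simp at this
        omega
      rw [show c.1 = c'.1 from funext h6]
    exact Subtype.ext h4
  have hQfinite : Finite Q := Finite.of_injective _ hQinj
  have hQcard : Q.ncard ≤ 4 ^ t' := by
    have h1 := Nat.card_le_card_of_injective _ hQinj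
    have h2 : Nat.card (Fin t' → ZMod 4) = 4 ^ t' := by
      rw [Nat.card_eq_fintype_card, Fintype.card_fun, ZMod.card, Fintype.card_fin]
    rw [h2] at h1
    exact h1
  have hQfin : Q.Finite := Set.toFinite Q
  set QF : Finset (Fin t' → ℤ) := hQfin.toFinset with hQF
  have hQFmem : ∀ c, c ∈ QF ↔ c ∈ Q := fun c => hQfin.mem_toFinset
  have hQFcard : QF.card ≤ 4 ^ t' := by
    rw [hQF, ← Set.ncard_eq_toFinset_card Q hQfin]; exact hQcard
  -- unimodularity
  have huni : ∀ c ∈ QF, ∃ u : Fin t' → ℤ, ∑ i, c i * u i = 1 := by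
    intro c hc
    rw [hQFmem] at hc
    obtain ⟨hc0, u, hu⟩ := hc
    have hprin : (Ideal.span (Set.range c)).IsPrincipal := inferInstance
    obtain ⟨g, hg⟩ := hprin.principal
    have hgmem : g ∈ Ideal.span (Set.range c) := by
      rw [hg]; exact Submodule.mem_span_singleton_self g
    have hgs : ∃ q : Fin t' → ℤ, ∑ i, q i • c i = g := by
      rw [← Submodule.mem_span_range_iff_exists_fun (R := ℤ)]; exact hgmem
    obtain ⟨q, hq⟩ := hgs
    have hdiv : ∀ i, ∃ d : ℤ, c i = g * d := by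
      intro i
      have h1 : c i ∈ Ideal.span (Set.range c) := Ideal.subset_span ⟨i, rfl⟩
      rw [hg] at h1
      obtain ⟨d, hd⟩ := Submodule.mem_span_singleton.1 h1
      exact ⟨d, by rw [← hd, smul_eq_mul, mul_comm]⟩
    choose d hd using hdiv
    have hxd := hxisub c 0 d g (fun i => by rw [hd i]; simp)
    have hxi0 : xi 0 = 0 := by
      show ∑ i, (0 : Fin t' → ℤ) i • e i = 0
      simp
    rw [hxi0] at hxd
    have hxd' : ι (σ (xi c : A ⧸ K)) = (g : ℝ) • ι (σ (xi d : A ⧸ K)) := by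
      rw [← hxd]; simp
    have hg0 : g ≠ 0 := by
      rintro rfl
      apply hc0
      have : c = 0 := by funext i; rw [hd i]; simp
      rw [this, hxi0]
    have hgR : (g : ℝ) ≠ 0 := by exact_mod_cast hg0
    have hg1 : |g| ≤ 1 := by
      by_contra hcon
      push Not at hcon
      have hd0 : (xi d : A ⧸ K) ≠ 0 := by
        intro h
        apply hc0
        have h1 : xi c = g • xi d := by
          show ∑ i, c i • e i = g • ∑ i, d i • e i
          rw [Finset.smul_sum]
          apply Finset.sum_congr rfl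
          intro i _
          rw [hd i, mul_smul]
        have h2 : xi d = 0 := Subtype.ext h
        rw [h1, h2, smul_zero]
      apply nohalf _ (hxiM d) hd0 ((1 / (g : ℝ)) • (ι (σ (xi c : A ⧸ K)) + ι0 u))
      · have h4 : (1 / (g : ℝ)) • (ι (σ (xi c : A ⧸ K)) + ι0 u) - ι (σ (xi d : A ⧸ K))
            = (1 / (g : ℝ)) • ι0 u := by
          rw [hxd', smul_add, smul_smul, one_div_mul_cancel hgR, one_smul]; abel
        rw [h4]
        exact smul_mem _ _ (subset_span ⟨_, rfl⟩)
      · rw [smul_smul]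
        apply smul_mem1 hD hs h0 _ hu
        have h5 : (2 : ℝ) ≤ |(g : ℝ)| := by
          have : (2 : ℤ) ≤ |g| := hcon
          have h6 : (2 : ℝ) ≤ ((|g| : ℤ) : ℝ) := by exact_mod_cast this
          rwa [Int.cast_abs] at h6
        rw [mul_one_div, abs_div, div_le_one (by positivity)]
        rw [abs_of_pos (by norm_num : (0:ℝ) < 2)]
        exact h5
    have hgg : g * g = 1 := by
      have h1 : 0 < |g| := abs_pos.2 hg0
      have h2 : |g| = 1 := by omega
      have h3 : g * g = |g| * |g| := (abs_mul_abs_self g).symm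
      rw [h3, h2]; norm_num
    refine ⟨fun i => q i * g, ?_⟩
    calc ∑ i, c i * (q i * g) = (∑ i, q i • c i) * g := by
          rw [Finset.sum_mul]
          apply Finset.sum_congr rfl
          intro i _
          rw [smul_eq_mul]; ring
      _ = 1 := by rw [hq, hgg]
  -- the finite group
  have hprodpos : 0 < ∏ j ∈ Finset.range (r + 1), m j := Finset.prod_pos fun j _ => hpos j
  have hfinG : Finite (K ⧸ M0) := by
    have : M0.FiniteIndex := ⟨by rw [hM0i]; exact hprodpos.ne'⟩
    infer_instance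
  have : Fintype (K ⧸ M0) := Fintype.ofFinite _
  have hGcard : Fintype.card (K ⧸ M0) = ∏ j ∈ Finset.range (r + 1), m j := by
    rw [← hM0i, ← Nat.card_eq_fintype_card]; rfl
  let Sb : (Fin t' → ℤ) → Set K := fun c => {u : K | ι (σ (xi c : A ⧸ K)) + ι0 u ∈ D}
  let S : (Fin t' → ℤ) → Finset (K ⧸ M0) := fun c =>
    (Set.toFinite ((fun u : K => (QuotientAddGroup.mk u : K ⧸ M0)) '' (Sb c))).toFinset
  have ha0 : ∀ j < r + 1, Module.finrank ℝ
      (span ℝ (ι0 '' {a : K | (m j : ℝ) • ι0 a ∈ D})) ≤ j := by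
    intro j hj
    refine le_trans ?_ (ha j (by omega))
    apply Submodule.finrank_mono
    apply span_mono
    rintro _ ⟨a, haa, rfl⟩
    exact ⟨(a : A), haa, rfl⟩
  have hScard : ∀ c ∈ QF, (S c).card ≤
      4 ^ r * ((r + 1) * m (r + 1)) * ∏ j ∈ Finset.range r, m j := by
    intro c hc
    rw [hQFmem] at hc
    obtain ⟨hc0, u, hu⟩ := hc
    have hc0' : (xi c : A ⧸ K) ≠ 0 := fun h => hc0 (Subtype.ext h)
    obtain ⟨j, hj, w', hw', hw'X⟩ := hmem' _ (hxiM c) hc0'
    have hcount := count2 hK ι0 hI0 hD hs h0 (ι (σ (xi c : A ⧸ K))) (m (r + 1 + j)) (hpos _)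
      (by
        intro b hb
        apply hw'X
        refine ⟨b, ?_⟩
        rw [hw', hscale, ← smul_add] at hb
        exact hb) m hm ha0 (by
        have h1 := hms j
        have h2 : (r + 1) * m (r + 1 + j) ≤ C * m (r + 1) := by
          apply Nat.mul_le_mul _ h1
          omega
        omega)
    obtain ⟨hfin, hle⟩ := hcount
    have h1 : (S c).card ≤ (Sb c).ncard := by
      rw [← Set.ncard_eq_toFinset_card _ _]
      exact Set.ncard_image_le hfin
    refine le_trans h1 (le_trans hle ?_)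
    apply Nat.mul_le_mul_right
    apply Nat.mul_le_mul_left
    apply Nat.mul_le_mul_left
    exact hms j
  have hsum : ∑ c ∈ QF, (S c).card < Fintype.card (K ⧸ M0) := by
    rw [hGcard, Finset.prod_range_succ]
    calc ∑ c ∈ QF, (S c).card
        ≤ ∑ c ∈ QF, 4 ^ r * ((r + 1) * m (r + 1)) * ∏ j ∈ Finset.range r, m j :=
          Finset.sum_le_sum hScard
      _ = QF.card * (4 ^ r * ((r + 1) * m (r + 1)) * ∏ j ∈ Finset.range r, m j) := by
          rw [Finset.sum_const, smul_eq_mul]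
      _ ≤ 4 ^ t * (4 ^ r * ((r + 1) * m (r + 1)) * ∏ j ∈ Finset.range r, m j) := by
          apply Nat.mul_le_mul_right
          exact hQFcard.trans (Nat.pow_le_pow_right (by norm_num) ht't)
      _ = (4 ^ t * (4 ^ r * (r + 1))) * m (r + 1) * ∏ j ∈ Finset.range r, m j := by ring
      _ ≤ C * m (r + 1) * ∏ j ∈ Finset.range r, m j := by
          apply Nat.mul_le_mul_right
          exact Nat.mul_le_mul_right _ hCa
      _ < m r * ∏ j ∈ Finset.range r, m j := by
          apply Nat.mul_lt_mul_of_pos_right hgap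
          exact Finset.prod_pos fun j _ => hpos j
      _ = (∏ j ∈ Finset.range r, m j) * m r := mul_comm _ _
  obtain ⟨γ, hγ⟩ := avoid QF huni S hsum
  let θ : Mb →+ (K ⧸ M0) :=
    { toFun := fun x => ∑ i, (e.repr (⟨x.1, x.2⟩ : Mb') i) • γ i
      map_zero' := by
        have : (⟨((0 : Mb) : A ⧸ K), (0 : Mb).2⟩ : Mb') = 0 := rfl
        rw [this]; simp
      map_add' := fun x y => by
        have : (⟨((x + y : Mb) : A ⧸ K), (x + y).2⟩ : Mb') = ⟨x.1, x.2⟩ + ⟨y.1, y.2⟩ := rfl
        rw [this, map_add]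
        simp only [Finsupp.add_apply, add_smul, Finset.sum_add_distrib] }
  obtain ⟨M, hMi, hM⟩ := glue K σ hσ' M0 Mb θ
  refine ⟨M, ?_, ?_⟩
  · rw [hMi, hM0i, hMbi, Finset.prod_range_add m (r + 1) t]
    congr 1
    apply Finset.prod_congr rfl
    intro j hj
    simp only [hadef]
    rw [if_pos (Finset.mem_range.1 hj)]
  · intro b hb hbD
    obtain ⟨x, u, rfl, hθ⟩ := hM b hb
    by_cases hx : x = 0
    · subst hx
      have h1 : (QuotientAddGroup.mk u : K ⧸ M0) = 0 := by rw [hθ, map_zero]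
      rw [QuotientAddGroup.eq_zero_iff] at h1
      have h2 : ((0 : Mb) : A ⧸ K) = 0 := rfl
      have h3 : u = 0 := hM0 u h1 (by
        rw [h2, map_zero, zero_add] at hbD
        exact hbD)
      rw [h2, h3]; simp
    · exfalso
      let x' : Mb' := ⟨x.1, x.2⟩
      have hx' : x' ≠ 0 := by
        intro h
        apply hx
        exact Subtype.ext (congrArg Subtype.val h)
      let c : Fin t' → ℤ := fun i => e.repr x' i
      have hxc : xi c = x' := e.sum_repr x'
      have hval : (xi c : A ⧸ K) = (x : A ⧸ K) := by rw [hxc]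
      have hcQ : c ∈ QF := by
        rw [hQFmem]
        refine ⟨by rw [hxc]; exact hx', u, ?_⟩
        rw [hval, hι0a, ← map_add]
        exact hbD
      apply hγ c hcQ
      have h1 : ∑ i, c i • γ i = θ x := rfl
      rw [h1, ← hθ]
      rw [Set.Finite.mem_toFinset]
      refine ⟨u, ?_, rfl⟩
      show ι (σ (xi c : A ⧸ K)) + ι0 u ∈ D
      rw [hval, hι0a, ← map_add]
      exact hbD

end Pool.Agent.H257.BHW
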