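import Mathlib
import Pool.Agent.H257.BHW.Block

set_option autoImplicit false

namespace Pool.Agent.H257.BHW

open Submodule

universe u

variable {E : Type*} [AddCommGroup E] [Module ℝ E] [FiniteDimensional ℝ E]

theorem sublattice2 {D : Set E} (hD : Convex ℝ D) (hs : ∀ x ∈ D, -x ∈ D) (h0 : (0 : E) ∈ D)
    (m : ℕ → ℕ) (hm : Antitone m) (hpos : ∀ j, 0 < m j) (C : ℕ) :
    ∀ (n : ℕ) (A : Type u) [AddCommGroup A] [Module.Free ℤ A] [Module.Finite ℤ A]
      (ι : A →ₗ[ℤ] E), Module.finrank ℤ A = n →
      (∀ (k : ℕ) (v : Fin k → A), LinearIndependent ℤ v →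
        LinearIndependent ℝ (fun i => ι (v i))) →
      n * 4 ^ n ≤ C →
      (∀ j < n, Module.finrank ℝ (span ℝ (ι '' {a : A | (m j : ℝ) • ι a ∈ D})) ≤ j) →
      (∀ j, j + 1 < n → m (j+1) ∣ m j ∨ (C * m (j+1) < m j ∧
        j + 1 ≤ Module.finrank ℝ
          (span ℝ (ι '' {a : A | ((C * m (j+1) : ℕ) : ℝ) • ι a ∈ D})))) →
      ∃ M : AddSubgroup A, M.index = ∏ j ∈ Finset.range n, m j ∧ ∀ a ∈ M, ι a ∈ D → a = 0 := by
  classical
  intro n
  induction n using Nat.strong_induction_on with
  | _ n ih =>
    intro A _ _ _ ι hA hI hC ha hg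
    by_cases hall : ∀ j, j + 1 < n → m (j+1) ∣ m j
    · -- pure divisor chain
      set a : ℕ → ℕ := fun j => if j < n then m j else 1 with hadef
      obtain ⟨M, hMi, hM, -⟩ := dc2 n A hA (fun j => {w : A | (m j : ℝ) • ι w ∈ D}) a
        (by intro j; simp only [hadef]; split_ifs
            · exact hpos _
            · norm_num)
        (by intro j; simp only [hadef]
            by_cases h1 : j + 1 < n
            · rw [if_pos h1, if_pos (by omega : j < n)]; exact hall j h1
            · rw [if_neg h1]; exact one_dvd _)
        (by intro j hj; exact le_trans (rank_le ι hI _) (ha j hj))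
      refine ⟨M, ?_, ?_⟩
      · rw [hMi]
        apply Finset.prod_congr rfl
        intro j hj
        simp only [hadef]
        rw [if_pos (Finset.mem_range.1 hj)]
      · intro b hb hbD
        by_contra hb0
        obtain ⟨j, hj, w', hw', hw'X⟩ := hM b hb hb0
        apply hw'X
        show (m j : ℝ) • ι w' ∈ D
        rw [hw'] at hbD
        simp only [hadef] at hbD
        rw [if_pos hj, map_nsmul, ← Nat.cast_smul_eq_nsmul ℝ] at hbD
        exact hbD
    · push Not at hall
      let P : ℕ → Prop := fun j => j + 1 < n ∧ ¬ m (j+1) ∣ m j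
      obtain ⟨j1, hj1⟩ := hall
      have hP1 : P j1 := hj1
      set r := Nat.findGreatest P n with hr
      have hPr : P r := Nat.findGreatest_spec (P := P) (m := j1) (n := n) (by have := hj1.1; omega) hP1
      have hgreat : ∀ k, r < k → k ≤ n → ¬ P k := fun k hk1 hk2 =>
        Nat.findGreatest_is_greatest hk1 hk2
      obtain ⟨hrn, hrnd⟩ := hPr
      obtain ⟨t, ht⟩ : ∃ t, n = r + 1 + t := ⟨n - (r + 1), by omega⟩
      have hchain : ∀ j, r + 1 ≤ j → j + 1 < r + 1 + t → m (j + 1) ∣ m j := by
        intro j hj1 hj2
        by_contra hcon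
        exact hgreat j (by omega) (by omega) ⟨by omega, hcon⟩
      rcases hg r hrn with hd | ⟨hgap, hgr⟩
      · exact absurd hd hrnd
      · have hC1 : (r + 1 + t) * 4 ^ (r + 1 + t) ≤ C := by rw [← ht]; exact hC
        have h4t : 1 ≤ 4 ^ t := Nat.one_le_pow _ _ (by norm_num)
        have h4r : 1 ≤ 4 ^ r := Nat.one_le_pow _ _ (by norm_num)
        have hpw : 4 ^ (r + 1 + t) = 4 * (4 ^ r * 4 ^ t) := by
          rw [pow_add, pow_succ]; ring
        have hprod1 : 1 ≤ 4 ^ r * 4 ^ t := Nat.mul_pos h4r h4t
        have hCa : 4 ^ t * (4 ^ r * (r + 1)) ≤ C := by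
          refine le_trans ?_ hC1
          rw [hpw]
          calc 4 ^ t * (4 ^ r * (r + 1)) = (r + 1) * (4 ^ r * 4 ^ t) := by ring
            _ ≤ (r + 1 + t) * (4 * (4 ^ r * 4 ^ t)) := by
              apply Nat.mul_le_mul (by omega) (by omega)
        have hCb : 2 * (r + 1) ≤ C := by
          refine le_trans ?_ hC1
          rw [hpw]
          calc 2 * (r + 1) = (r + 1) * 2 := by ring
            _ ≤ (r + 1 + t) * (4 * (4 ^ r * 4 ^ t)) := by
              apply Nat.mul_le_mul (by omega) (by omega)
        have hCpos : 1 ≤ C := by omega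
        set V : Submodule ℝ E :=
          span ℝ (ι '' {a : A | ((C * m (r+1) : ℕ) : ℝ) • ι a ∈ D}) with hV
        have hVle : Module.finrank ℝ V ≤ r + 1 := by
          refine le_trans ?_ (ha (r + 1) (by omega))
          apply Submodule.finrank_mono
          apply span_mono
          rintro _ ⟨a, haa, rfl⟩
          refine ⟨a, ?_, rfl⟩
          apply mono_nat hD hs h0 _ haa
          nlinarith [hpos (r+1)]
        let K : Submodule ℤ A := (V.restrictScalars ℤ).comap ι
        have hKmem : ∀ a, a ∈ K ↔ ι a ∈ V := fun a => Iff.rfl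
        obtain ⟨v0, hv0X, hv0⟩ := extract (N := r + 1) ι
          {a : A | ((C * m (r+1) : ℕ) : ℝ) • ι a ∈ D} hgr
        let v : Fin (r+1) → K := fun i => ⟨v0 i, subset_span ⟨v0 i, hv0X i, rfl⟩⟩
        have hv : LinearIndependent ℝ (fun i => ι (v i : A)) := hv0
        have hKrank : Module.finrank ℤ K = r + 1 := by
          apply le_antisymm
          · have h1 := rank_le ι hI (K : Set A)
            rw [Submodule.span_eq] at h1
            refine le_trans h1 (le_trans ?_ hVle)
            apply Submodule.finrank_mono
            rw [span_le]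
            rintro _ ⟨a, haa, rfl⟩
            exact haa
          · have h5 : LinearIndependent ℤ (fun i => ι (v i : A)) :=
              hv.restrict_scalars (by
                intro x y hxy
                simpa using hxy)
            have h6 : LinearIndependent ℤ v :=
              LinearIndependent.of_comp (ι.comp K.subtype) h5
            have := h6.fintype_card_le_finrank
            simpa using this
        have hI0 : ∀ (k : ℕ) (v : Fin k → K), LinearIndependent ℤ v →
            LinearIndependent ℝ (fun i => (ι.comp K.subtype) (v i)) := by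
          intro k v hv
          have h1 : LinearIndependent ℤ (fun i => ((v i : K) : A)) :=
            hv.map' K.subtype (ker_subtype _)
          exact hI k _ h1
        obtain ⟨M0, hM0i, hM0⟩ := ih (r + 1) hrn K (ι.comp K.subtype) hKrank hI0
          (by
            refine le_trans ?_ hC1
            apply Nat.mul_le_mul (by omega)
            exact Nat.pow_le_pow_right (by norm_num) (by omega))
          (by
            intro j hj
            refine le_trans ?_ (ha j (by omega))
            apply Submodule.finrank_mono
            apply span_mono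
            rintro _ ⟨a, haa, rfl⟩
            exact ⟨(a : A), haa, rfl⟩)
          (by
            intro j hj
            rcases hg j (by omega) with hd | ⟨h1, h2⟩
            · exact Or.inl hd
            · refine Or.inr ⟨h1, le_trans h2 ?_⟩
              apply Submodule.finrank_mono
              apply span_mono
              rintro _ ⟨a, haa, rfl⟩
              have h3 : ((C * m (r+1) : ℕ) : ℝ) • ι a ∈ D :=
                mono_nat hD hs h0 (Nat.mul_le_mul_left C (hm (by omega))) haa
              exact ⟨⟨a, subset_span ⟨a, h3, rfl⟩⟩, haa, rfl⟩)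
        have htf : Module.IsTorsionFree ℤ (A ⧸ K) := by
          apply Module.IsTorsionFree.of_smul_eq_zero
          intro c x hcx
          by_cases hc : c = 0
          · exact Or.inl hc
          · right
            obtain ⟨b, rfl⟩ := Submodule.mkQ_surjective K x
            rw [← map_smul, Submodule.mkQ_apply, Submodule.Quotient.mk_eq_zero, hKmem,
              map_smul, ← Int.cast_smul_eq_zsmul ℝ] at hcx
            rw [Submodule.mkQ_apply, Submodule.Quotient.mk_eq_zero, hKmem]
            have hcR : (c : ℝ) ≠ 0 := by exact_mod_cast hc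
            have := V.smul_mem (c : ℝ)⁻¹ hcx
            rwa [smul_smul, inv_mul_cancel₀ hcR, one_smul] at this
        have hfree : Module.Free ℤ (A ⧸ K) := Module.free_of_finite_type_torsion_free'
        obtain ⟨M, hM1, hM2⟩ := block hD hs h0 m hm hpos C r t ι (hA.trans ht) hI hCa hCb
          K hKrank v hv (fun j => hv0X j) (fun j hj => ha j (by omega)) hchain hgap M0 hM0i
          (fun a ham haD => hM0 a ham haD)
        exact ⟨M, by rw [hM1, ← ht], hM2⟩

end Pool.Agent.H257.BHW
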